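import Pool.Agent.Gen.TY.FC.Lit0
import Pool.Agent.Gen.TY.FC.Lit1
import Pool.Agent.Gen.TY.FC.Lit2
import Pool.Agent.Gen.TY.FC.Lit3
import Pool.Agent.Gen.TY.FC.Lit4

/-!
MP_8ee768_co, project TH-Y', stage F: the lists of chunk literals.
-/

set_option autoImplicit false

namespace Pool.Agent.Gen.TY.FC

def chAX0 : List Nat :=
  [cAX0_0]

def chAX2 : List Nat :=
  [cAX2_0]

def chAX4 : List Nat :=
  [cAX4_0, cAX4_1, cAX4_2, cAX4_3, cAX4_4, cAX4_5, cAX4_6, cAX4_7, cAX4_8, cAX4_9, cAX4_10, cAX4_11, cAX4_12, cAX4_13, cAX4_14, cAX4_15, cAX4_16]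

def chAN2 : List Nat :=
  [cAN2_0, cAN2_1]

def chAN4 : List Nat :=
  [cAN4_0, cAN4_1, cAN4_2, cAN4_3, cAN4_4, cAN4_5, cAN4_6, cAN4_7, cAN4_8, cAN4_9, cAN4_10]

def chBX0 : List Nat :=
  [cBX0_0]

def chBX2 : List Nat :=
  [cBX2_0]

def chBX4 : List Nat :=
  [cBX4_0, cBX4_1, cBX4_2, cBX4_3, cBX4_4, cBX4_5, cBX4_6, cBX4_7, cBX4_8]

def chBN2 : List Nat :=
  [cBN2_0]

def chBN4 : List Nat :=
  [cBN4_0, cBN4_1, cBN4_2, cBN4_3, cBN4_4, cBN4_5]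

end Pool.Agent.Gen.TY.FC
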