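import Pool.Agent.Gen.TY.FC.Typ
import Pool.Agent.Gen.TY.FC.Ents
import Pool.Agent.Gen.TY.FC.Lits

/-!
MP_8ee768_co, project TH-Y', stage F: the chunks of the group AN2 are the lanes of its entries.
-/

set_option autoImplicit false

namespace Pool.Agent.Gen.TY.FC

open Pool.Agent.Helper20.TY
open Pool.Agent.Helper67.TY (repA repB)

theorem chkAN2 : okGF cubA 64 63 chAN2 gAN2 = true := by decide +kernel

theorem tfAN2 : TabF repA 64 63 gAN2 chAN2 :=
  tabF_of_okGF (by norm_num) cubA_eq oddA chkAN2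

end Pool.Agent.Gen.TY.FC
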