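import Pool.Agent.Gen.TY.FC.Typ
import Pool.Agent.Gen.TY.FC.Ents
import Pool.Agent.Gen.TY.FC.Lits

/-!
MP_8ee768_co, project TH-Y', stage F: the chunks of the group BX4 are the lanes of its entries.
-/

set_option autoImplicit false

namespace Pool.Agent.Gen.TY.FC

open Pool.Agent.Helper20.TY
open Pool.Agent.Helper67.TY (repA repB)

theorem chkBX4 : okGF cubB 64 22 chBX4 gBX4 = true := by decide +kernel

theorem tfBX4 : TabF repB 64 22 gBX4 chBX4 :=
  tabF_of_okGF (by norm_num) cubB_eq oddB chkBX4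

end Pool.Agent.Gen.TY.FC
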