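import Pool.Agent.Gen.TY.FC.TabAX0
import Pool.Agent.Gen.TY.FC.TabAX2
import Pool.Agent.Gen.TY.FC.TabAX4
import Pool.Agent.Gen.TY.FC.TabAN2
import Pool.Agent.Gen.TY.FC.TabAN4
import Pool.Agent.Gen.TY.FC.TabBX0
import Pool.Agent.Gen.TY.FC.TabBX2
import Pool.Agent.Gen.TY.FC.TabBX4
import Pool.Agent.Gen.TY.FC.TabBN2
import Pool.Agent.Gen.TY.FC.TabBN4
import Pool.Agent.Helper20.TY.Glue

/-!
MP_8ee768_co, project TH-Y', stage F: bounds of the chunk literals and the classes of the groups.
-/

set_option autoImplicit false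

namespace Pool.Agent.Gen.TY.FC

open Pool.Agent.Helper20.TY

theorem bAX0 : Bnd 64 chAX0 := bndOK_spec (by decide +kernel)
theorem bAX2 : Bnd 64 chAX2 := bndOK_spec (by decide +kernel)
theorem bAX4 : Bnd 64 chAX4 := bndOK_spec (by decide +kernel)
theorem bAN2 : Bnd 64 chAN2 := bndOK_spec (by decide +kernel)
theorem bAN4 : Bnd 64 chAN4 := bndOK_spec (by decide +kernel)
theorem bBX0 : Bnd 64 chBX0 := bndOK_spec (by decide +kernel)
theorem bBX2 : Bnd 64 chBX2 := bndOK_spec (by decide +kernel)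
theorem bBX4 : Bnd 64 chBX4 := bndOK_spec (by decide +kernel)
theorem bBN2 : Bnd 64 chBN2 := bndOK_spec (by decide +kernel)
theorem bBN4 : Bnd 64 chBN4 := bndOK_spec (by decide +kernel)

theorem rAX0 : rangeOK 0 13 gAX0 = true := by decide +kernel
theorem rAX2 : rangeOK 13 39 gAX2 = true := by decide +kernel
theorem rAX4 : rangeOK 39 466 gAX4 = true := by decide +kernel
theorem rAN2 : rangeOK 13 39 gAN2 = true := by decide +kernel
theorem rAN4 : rangeOK 39 466 gAN4 = true := by decide +kernel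
theorem rBX0 : rangeOK 0 13 gBX0 = true := by decide +kernel
theorem rBX2 : rangeOK 13 39 gBX2 = true := by decide +kernel
theorem rBX4 : rangeOK 39 466 gBX4 = true := by decide +kernel
theorem rBN2 : rangeOK 13 39 gBN2 = true := by decide +kernel
theorem rBN4 : rangeOK 39 466 gBN4 = true := by decide +kernel

end Pool.Agent.Gen.TY.FC
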