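import Pool.Agent.Gen.TY.FC.All
import Pool.Agent.Helper20.TY.Grps
import Pool.Agent.Helper79.CV.FReps

/-!
MP_8ee768_co, project TH-Y', stage F: the groups of the types A and B as records
(`GrpA`, `GrpB`), with helper79's ranges `loF`, `hiF`.
-/

set_option autoImplicit false

namespace Pool.Agent.Gen.TY.FC

open Pool.Agent.Helper79.CV
open Pool.Agent.Helper67.TY (repA repB)
open Pool.Agent.Helper20.TY

/-- choice by the excess 0, 2, 4 -/
def by024 {α : Type} (a b c : α) (m : ℕ) : α :=
  bif Nat.beq m 0 then a else bif Nat.beq m 2 then b else c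

/-- choice by the excess 2, 4 -/
def by24 {α : Type} (b c : α) (m : ℕ) : α := bif Nat.beq m 2 then b else c

def GrpA : Grps repA loF hiF where
  gX := by024 gAX0 gAX2 gAX4
  gN := by24 gAN2 gAN4
  cX := by024 chAX0 chAX2 chAX4
  cN := by24 chAN2 chAN4
  pX := by024 48 23 3
  pN := by24 63 4
  tX := by
    intro m hm
    rcases hm with rfl | rfl | rfl
    · exact tfAX0
    · exact tfAX2
    · exact tfAX4
  tN := by
    intro m hm
    rcases hm with rfl | rfl
    · exact tfAN2
    · exact tfAN4
  rX := by
    intro m hm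
    rcases hm with rfl | rfl | rfl
    · exact rAX0
    · exact rAX2
    · exact rAX4
  rN := by
    intro m hm
    rcases hm with rfl | rfl
    · exact rAN2
    · exact rAN4
  bX := by
    intro m hm
    rcases hm with rfl | rfl | rfl
    · exact bAX0
    · exact bAX2
    · exact bAX4
  bN := by
    intro m hm
    rcases hm with rfl | rfl
    · exact bAN2
    · exact bAN4
  h02 := by decide
  h24 := by decide
  h04 := by decide

def GrpB : Grps repB loF hiF where
  gX := by024 gBX0 gBX2 gBX4
  gN := by24 gBN2 gBN4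
  cX := by024 chBX0 chBX2 chBX4
  cN := by24 chBN2 chBN4
  pX := by024 47 43 22
  pN := by24 12 40
  tX := by
    intro m hm
    rcases hm with rfl | rfl | rfl
    · exact tfBX0
    · exact tfBX2
    · exact tfBX4
  tN := by
    intro m hm
    rcases hm with rfl | rfl
    · exact tfBN2
    · exact tfBN4
  rX := by
    intro m hm
    rcases hm with rfl | rfl | rfl
    · exact rBX0
    · exact rBX2
    · exact rBX4
  rN := by
    intro m hm
    rcases hm with rfl | rfl
    · exact rBN2
    · exact rBN4
  bX := by
    intro m hm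
    rcases hm with rfl | rfl | rfl
    · exact bBX0
    · exact bBX2
    · exact bBX4
  bN := by
    intro m hm
    rcases hm with rfl | rfl
    · exact bBN2
    · exact bBN4
  h02 := by decide
  h24 := by decide
  h04 := by decide

theorem lx_A : GrpA.lx = gAX0 ++ gAX2 ++ gAX4 := rfl

theorem l_A : GrpA.l = gAX0 ++ gAX2 ++ gAX4 ++ gAN2 ++ gAN4 := rfl

theorem lx_B : GrpB.lx = gBX0 ++ gBX2 ++ gBX4 := rfl

theorem l_B : GrpB.l = gBX0 ++ gBX2 ++ gBX4 ++ gBN2 ++ gBN4 := rfl

end Pool.Agent.Gen.TY.FC
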