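import Pool.Agent.Helper20.TY.ChunkF
import Pool.Agent.Helper67.TY.RunsData

/-!
MP_8ee768_co, project TH-Y', stage F: the cubes of the two types and their parity.
-/

set_option autoImplicit false

namespace Pool.Agent.Gen.TY.FC

open Finset
open Pool.Agent.Helper79.CV
open Pool.Agent.Helper33.CV
open Pool.Agent.Helper20.TY
open Pool.Agent.Helper67.TY (repA repB)
open Pool.Agent.Helper82.TY (below)

/-- the cube of `repA` -/
def cubA : Nat := 0x16000000000000000000000000000000000000000000000000000000000000010000000000000000000000000100000000000000000001000000000000000000000000000000000000000000000000000000000000000000000000000000010000000000000000000000000000000001000000000100000000000000000000000000000000000000000000000000000010000000000000000400000002000000000000000000000002000000000004000000000000000010000100004000200800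

/-- the cube of `repB` -/
def cubB : Nat := 0x16000000000000000000000000000000000000000000000000000000000001000000000000000000000000000000000100000000010000000000000000000000000000000000000000000000000000000000000000000000000000000100000000000000000000000000000000000100000000000000000100000000000000000000000000000000000000000000000002000000000000000400000000000010000000000000000010000000040000000000000000000200000010020004000080

theorem cubA_eq : cubA = cub 11 (fam 11 3 repA) := by
  rw [cub_fam (by norm_num)]
  decide +kernel

theorem cubB_eq : cubB = cub 11 (fam 11 3 repB) := by
  rw [cub_fam (by norm_num)]
  decide +kernel

theorem oddA : OddFam 2 (below 11) (fam 11 3 repA) := by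
  refine okT_spec ?_
  rw [← cubA_eq]
  decide +kernel

theorem oddB : OddFam 2 (below 11) (fam 11 3 repB) := by
  refine okT_spec ?_
  rw [← cubB_eq]
  decide +kernel

end Pool.Agent.Gen.TY.FC
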